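import Mathlib

set_option autoImplicit false
open Polynomial Complex Metric

namespace Pool.Agent.H.MP_410a69_an

lemma jouk (r : ℂ) (hr : ∀ x : ℝ, x ∈ Set.Icc (-1:ℝ) 1 → r ≠ x) :
    ∃ v : ℂ, ‖v‖ < 1 ∧ v ≠ 0 ∧ 1 + v ^ 2 = 2 * r * v := by
  obtain ⟨s, hs⟩ := IsAlgClosed.exists_pow_nat_eq (r ^ 2 - 1) (n := 2) (by norm_num)
  have h1 : (r + s) * (r - s) = 1 := by linear_combination (-1) * hs
  have hn : ‖r + s‖ * ‖r - s‖ = 1 := by rw [← norm_mul, h1, norm_one]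
  have key : ∀ v v' : ℂ, v * v' = 1 → v + v' = 2 * r → ‖v‖ ≠ 1 := by
    intro v v' h hs' hv
    have hc : v * (starRingEnd ℂ) v = 1 := by
      rw [Complex.mul_conj, Complex.normSq_eq_norm_sq, hv]; norm_num
    have hv0 : v ≠ 0 := by rintro rfl; simp at hv
    have : v' = (starRingEnd ℂ) v := mul_left_cancel₀ hv0 (h.trans hc.symm)
    rw [this, Complex.add_conj] at hs'
    have hre : |v.re| ≤ 1 := hv ▸ Complex.abs_re_le_norm v
    refine hr v.re ⟨(abs_le.1 hre).1, (abs_le.1 hre).2⟩ ?_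
    push_cast at hs'
    linear_combination (-1/2) * hs'
  have a0 : r + s ≠ 0 := by intro h; rw [h] at h1; simp at h1
  have b0 : r - s ≠ 0 := by intro h; rw [h] at h1; simp at h1
  rcases lt_trichotomy ‖r + s‖ 1 with h | h | h
  · exact ⟨r + s, h, a0, by linear_combination hs⟩
  · exact absurd h (key _ _ h1 (by ring))
  · refine ⟨r - s, ?_, b0, by linear_combination hs⟩
    by_contra hh
    push Not at hh
    nlinarith

lemma shrink (a : ℂ) (ha : ‖a‖ ≤ 1) (ρ : ℝ) (h0 : 0 ≤ ρ) (h1 : ρ ≤ 1) :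
    ρ * ‖1 - a‖ ≤ ‖1 - ρ * a‖ := by
  have hre : a.re ≤ 1 := (Complex.re_le_norm a).trans ha
  refine (abs_le_of_sq_le_sq' ?_ (norm_nonneg _)).2
  rw [mul_pow, Complex.sq_norm, Complex.sq_norm, normSq_apply, normSq_apply]
  simp only [sub_re, one_re, sub_im, one_im, mul_re, ofReal_re, ofReal_im, mul_im]
  nlinarith [mul_nonneg (mul_nonneg h0 (sub_nonneg.2 h1)) (sub_nonneg.2 hre), sq_nonneg (1 - ρ)]

/-- the factor data -/
structure Fac (f : ℝ → ℝ) (d : ℕ) (A : ℝ) (G : ℂ[X]) (L : ℂ → ℂ) : Prop where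
  pos : 0 < A
  deg : G.natDegree ≤ 2 * d
  zero : G.coeff 0 = 1
  ne : ∀ u : ℂ, ‖u‖ ≤ 1 → G.eval u ≠ 0
  val : ∀ θ : ℝ, f (Real.cos θ) = A * ‖G.eval (exp (θ * I))‖
  diff : DifferentiableOn ℂ L (ball 0 1)
  L0 : L 0 = 0
  ex : ∀ u : ℂ, ‖u‖ < 1 → exp (L u) = G.eval u
  shr : ∀ ρ : ℝ, 0 ≤ ρ → ρ ≤ 1 → ∀ u : ℂ, ‖u‖ ≤ 1 → ρ ^ (2 * d) * ‖G.eval u‖ ≤ ‖G.eval (ρ * u)‖

lemma one_sub_ne (v u : ℂ) (hv : ‖v‖ < 1) (hu : ‖u‖ ≤ 1) : 0 < (1 - v * u).re := by
  have : (v * u).re ≤ ‖v‖ * ‖u‖ := by rw [← norm_mul]; exact Complex.re_le_norm _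
  have h2 : ‖v‖ * ‖u‖ ≤ ‖v‖ := mul_le_of_le_one_right (norm_nonneg _) hu
  simp only [sub_re, one_re]
  linarith

lemma fac_ms (s : Multiset ℂ) (hs : ∀ r ∈ s, ∀ x : ℝ, x ∈ Set.Icc (-1:ℝ) 1 → r ≠ x) :
    ∃ A G L, Fac (fun x => ‖(s.map (fun r => (x:ℂ) - r)).prod‖) s.card A G L := by
  induction s using Multiset.induction_on with
  | empty =>
    refine ⟨1, 1, fun _ => 0, one_pos, by simp, by simp, by simp, by simp, by fun_prop, rfl, by simp, by simp⟩
  | cons r s ih =>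
    obtain ⟨A, G, L, h⟩ := ih (fun r' hr' => hs r' (Multiset.mem_cons_of_mem hr'))
    obtain ⟨v, hv1, hv0, hv⟩ := jouk r (hs r (Multiset.mem_cons_self _ _))
    set v' := (starRingEnd ℂ) v with hv'
    have hv1' : ‖v'‖ < 1 := by rw [hv', Complex.norm_conj]; exact hv1
    have hvp : 0 < ‖v‖ := norm_pos_iff.2 hv0
    have nz : ∀ w u : ℂ, ‖w‖ < 1 → ‖u‖ ≤ 1 → 1 - w * u ≠ 0 := by
      intro w u hw hu h0
      have := one_sub_ne w u hw hu
      rw [h0] at this; simp at this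
    refine ⟨A / (2 * ‖v‖), (1 - C v * X) * (1 - C v' * X) * G,
      fun u => log (1 - v * u) + log (1 - v' * u) + L u, ?_, ?_, ?_, ?_, ?_, ?_, ?_, ?_, ?_⟩
    · have := h.pos; positivity
    · have h1 : (1 - C v * X : ℂ[X]).natDegree ≤ 1 := by compute_degree
      have h2 : (1 - C v' * X : ℂ[X]).natDegree ≤ 1 := by compute_degree
      have h3 := h.deg
      have h4 := natDegree_mul_le (p := (1 - C v * X) * (1 - C v' * X)) (q := G)
      have h5 := natDegree_mul_le (p := (1 - C v * X)) (q := (1 - C v' * X))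
      rw [Multiset.card_cons]; omega
    · simp [mul_coeff_zero, h.zero]
    · intro u hu
      simp only [eval_mul, eval_sub, eval_one, eval_C, eval_X]
      exact mul_ne_zero (mul_ne_zero (nz _ _ hv1 hu) (nz _ _ hv1' hu)) (h.ne u hu)
    · intro θ
      have hval := h.val θ
      simp only [Multiset.map_cons, Multiset.prod_cons, norm_mul, eval_mul, eval_sub, eval_one,
        eval_C, eval_X] at hval ⊢
      rw [hval]
      set e := exp (θ * I) with he
      have hce : (starRingEnd ℂ) e = exp (-θ * I) := by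
        rw [he, ← Complex.exp_conj]; simp
      have hee : e * exp (-θ * I) = 1 := by rw [he, ← Complex.exp_add]; simp
      have hcos : (Real.cos θ : ℂ) * 2 = e + exp (-θ * I) := by
        rw [Complex.ofReal_cos, he, mul_comm, Complex.two_cos]
      have h1 : ‖1 - v' * e‖ = ‖1 - v * exp (-θ * I)‖ := by
        rw [← Complex.norm_conj]; simp [hv', hce]
      have h2 : (1 - v * e) * (1 - v * exp (-θ * I)) = -(2 * v) * ((Real.cos θ : ℂ) - r) := by
        linear_combination v * hcos + v ^ 2 * hee + hv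
      have h3 : ‖1 - v * e‖ * ‖1 - v' * e‖ = 2 * ‖v‖ * ‖(Real.cos θ : ℂ) - r‖ := by
        rw [h1, ← norm_mul, h2, norm_mul, norm_neg, norm_mul]; simp
      rw [h3]; field_simp
    · have hd : ∀ w : ℂ, ‖w‖ < 1 → DifferentiableOn ℂ (fun u => log (1 - w * u)) (ball 0 1) := by
        intro w hw u hu
        refine (DifferentiableAt.clog (by fun_prop) (Or.inl ?_)).differentiableWithinAt
        exact one_sub_ne w u hw (by simpa using (mem_ball_zero_iff.1 hu).le)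
      exact ((hd v hv1).add (hd v' hv1')).add h.diff
    · simp [h.L0]
    · intro u hu
      simp only [eval_mul, eval_sub, eval_one, eval_C, eval_X, Complex.exp_add]
      rw [exp_log (nz _ _ hv1 hu.le), exp_log (nz _ _ hv1' hu.le), h.ex u hu]
    · intro ρ h0 h1 u hu
      simp only [eval_mul, eval_sub, eval_one, eval_C, eval_X, norm_mul, Multiset.card_cons]
      have a1 := shrink (v * u) (by rw [norm_mul]; exact mul_le_one₀ hv1.le (norm_nonneg _) hu) ρ h0 h1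
      have a2 := shrink (v' * u) (by rw [norm_mul]; exact mul_le_one₀ hv1'.le (norm_nonneg _) hu) ρ h0 h1
      have a3 := h.shr ρ h0 h1 u hu
      have e1 : v * (ρ * u) = ρ * (v * u) := by ring
      have e2 : v' * (ρ * u) = ρ * (v' * u) := by ring
      rw [e1, e2]
      calc ρ ^ (2 * (s.card + 1)) * (‖1 - v * u‖ * ‖1 - v' * u‖ * ‖G.eval u‖)
          = (ρ * ‖1 - v * u‖) * (ρ * ‖1 - v' * u‖) * (ρ ^ (2 * s.card) * ‖G.eval u‖) := by ring
        _ ≤ _ := by gcongr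

lemma fac (r : ℂ[X]) (hr : ∀ x : ℝ, x ∈ Set.Icc (-1:ℝ) 1 → r.eval (x:ℂ) ≠ 0) :
    ∃ A G L, Fac (fun x => ‖r.eval (x:ℂ)‖) r.natDegree A G L := by
  have r0 : r ≠ 0 := by rintro rfl; exact hr 0 (by simp) (by simp)
  obtain ⟨A, G, L, h⟩ := fac_ms r.roots (fun z hz x hx hzx => hr x hx (by
    rw [← hzx]; exact (mem_roots r0).1 hz))
  have hsp : r.Splits := IsAlgClosed.splits r
  have hc : r.roots.card = r.natDegree := (hsp.natDegree_eq_card_roots).symm
  have hl : 0 < ‖r.leadingCoeff‖ := norm_pos_iff.2 (leadingCoeff_ne_zero.2 r0)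
  refine ⟨‖r.leadingCoeff‖ * A, G, L, mul_pos hl h.pos, hc ▸ h.deg, h.zero, h.ne, ?_, h.diff, h.L0,
    h.ex, hc ▸ h.shr⟩
  intro θ
  have := h.val θ
  rw [hsp.eval_eq_prod_roots, norm_mul, this, mul_assoc]

/-- sup bound from Borel-Caratheodory -/
lemma Fac.bound {f : ℝ → ℝ} {d : ℕ} {A : ℝ} {G : ℂ[X]} {L : ℂ → ℂ} (h : Fac f d A G L)
    (τ H ρ : ℝ) (hτ : 0 < τ) (hH : 0 < H) (hA : A ≤ τ * Real.exp H)
    (hf : ∀ θ : ℝ, τ ≤ f (Real.cos θ)) (h0 : 0 < ρ) (h1 : ρ < 1) (θ : ℝ) :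
    ρ ^ (2 * d) * f (Real.cos θ) ≤ τ * Real.exp (H + 2 * H * ρ / (1 - ρ)) := by
  have hA0 := h.pos
  have hinv : ∀ u : ℂ, ‖u‖ ≤ 1 → ‖(G.eval u)⁻¹‖ ≤ Real.exp H := by
    intro u hu
    have hd : DiffContOnCl ℂ (fun u => (G.eval u)⁻¹) (ball 0 1) := by
      refine DifferentiableOn.diffContOnCl ?_
      rw [closure_ball _ one_ne_zero]
      exact (G.differentiable.differentiableOn).inv (fun z hz => h.ne z (by simpa using hz))
    refine Complex.norm_le_of_forall_mem_frontier_norm_le isBounded_ball hd ?_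
      (by rw [closure_ball _ one_ne_zero]; simpa using hu)
    intro z hz
    rw [frontier_ball _ one_ne_zero] at hz
    have hz1 : ‖z‖ = 1 := by simpa using hz
    have hz2 : z = exp ((z.arg : ℂ) * I) := by
      have := Complex.norm_mul_exp_arg_mul_I z
      rw [hz1] at this; simpa using this.symm
    have h2 := hf z.arg
    rw [h.val, ← hz2] at h2
    have h3 : 0 < ‖G.eval z‖ := norm_pos_iff.2 (h.ne z hz1.le)
    rw [norm_inv, inv_le_iff_one_le_mul₀ h3]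
    have : τ * 1 ≤ τ * (Real.exp H * ‖G.eval z‖) := by nlinarith
    exact le_of_mul_le_mul_left this hτ
  have hm : Set.MapsTo (fun u => -L u) (ball 0 1) {z | z.re ≤ H} := by
    intro u hu
    have hu' : ‖u‖ < 1 := mem_ball_zero_iff.1 hu
    have := hinv u hu'.le
    rw [← h.ex u hu', ← Complex.exp_neg, Complex.norm_exp] at this
    exact Real.exp_le_exp.1 this
  set e := exp (θ * I) with he
  have he1 : ‖e‖ = 1 := by rw [he]; exact Complex.norm_exp_ofReal_mul_I θ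
  have hn : ‖(ρ:ℂ) * e‖ = ρ := by rw [norm_mul, he1]; simp [h0.le]
  have hb := borelCaratheodory_zero hH h.diff.neg hm one_pos (z := ρ * e)
    (mem_ball_zero_iff.2 (by rw [hn]; exact h1)) (by simp [h.L0])
  rw [hn] at hb
  have h4 : ‖G.eval (ρ * e)‖ ≤ Real.exp (2 * H * ρ / (1 - ρ)) := by
    rw [← h.ex _ (by rw [hn]; exact h1), Complex.norm_exp]
    refine Real.exp_le_exp.2 ((Complex.re_le_norm _).trans ?_)
    simpa using hb
  have h5 := h.shr ρ h0.le h1.le e he1.le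
  rw [h.val θ, Real.exp_add, ← he]
  calc ρ ^ (2 * d) * (A * ‖G.eval e‖) = A * (ρ ^ (2 * d) * ‖G.eval e‖) := by ring
    _ ≤ (τ * Real.exp H) * Real.exp (2 * H * ρ / (1 - ρ)) := by
        gcongr; exact h5.trans h4
    _ = _ := by ring

/-- the monic real polynomial dominated by f / A -/
lemma Fac.monic {f : ℝ → ℝ} {d : ℕ} {A : ℝ} {G : ℂ[X]} {L : ℂ → ℂ} (h : Fac f d A G L)
    (k : ℕ) (hk : d ≤ k) : ∃ Q : ℝ[X], Q.Monic ∧ Q.natDegree = k + 1 ∧
      ∀ θ : ℝ, A * 2 ^ k * |Q.eval (Real.cos θ)| ≤ f (Real.cos θ) := by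
  set P : ℝ[X] := ∑ j ∈ Finset.range (2 * k + 1),
    C (G.coeff j).re * Chebyshev.T ℝ ((k + 1 : ℕ) - (j:ℤ)) with hP
  have hdeg : P.natDegree ≤ k + 1 := by
    refine natDegree_sum_le_of_forall_le _ _ (fun j hj => ?_)
    refine (natDegree_C_mul_le _ _).trans ?_
    rw [Chebyshev.natDegree_T]
    have := Finset.mem_range.1 hj
    omega
  have hco : P.coeff (k + 1) = 2 ^ k := by
    rw [hP, finsetSum_coeff, Finset.sum_range_succ', Finset.sum_eq_zero]
    · have := Chebyshev.leadingCoeff_T ℝ ((k + 1 : ℕ) : ℤ)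
      rw [leadingCoeff, Chebyshev.natDegree_T] at this
      simp only [Int.natAbs_natCast, Nat.add_sub_cancel] at this
      simp only [h.zero, one_re, map_one, one_mul, zero_add, Nat.cast_zero, sub_zero]
      exact this
    · intro j hj
      rw [coeff_C_mul, coeff_eq_zero_of_natDegree_lt (n := k + 1) (p := Chebyshev.T ℝ _), mul_zero]
      rw [Chebyshev.natDegree_T]
      have := Finset.mem_range.1 hj
      omega
  have hm : (C ((2:ℝ) ^ k)⁻¹ * P).coeff (k + 1) = 1 := by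
    rw [coeff_C_mul, hco]; field_simp
  have hd2 : (C ((2:ℝ) ^ k)⁻¹ * P).natDegree ≤ k + 1 := (natDegree_C_mul_le _ _).trans hdeg
  have hd3 : (C ((2:ℝ) ^ k)⁻¹ * P).natDegree = k + 1 :=
    le_antisymm hd2 (le_natDegree_of_ne_zero (by rw [hm]; exact one_ne_zero))
  refine ⟨C ((2:ℝ) ^ k)⁻¹ * P, monic_of_natDegree_le_of_coeff_eq_one _ hd2 hm, hd3, fun θ => ?_⟩
  have hG : ∀ u : ℂ, G.eval u = ∑ j ∈ Finset.range (2 * k + 1), G.coeff j * u ^ j := fun u =>
    eval_eq_sum_range' (by have := h.deg; omega) u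
  have hre : ∀ φ : ℝ, (exp (-((k + 1 : ℕ) * φ : ℝ) * I) * G.eval (exp (φ * I))).re =
      ∑ j ∈ Finset.range (2 * k + 1), ((G.coeff j).re * Real.cos ((((k + 1 : ℕ) - (j:ℤ) : ℤ)) * φ)
        + (G.coeff j).im * Real.sin ((((k + 1 : ℕ) - (j:ℤ) : ℤ)) * φ)) := by
    intro φ
    rw [hG, Finset.mul_sum, re_sum]
    refine Finset.sum_congr rfl (fun j _ => ?_)
    have : exp (-((k + 1 : ℕ) * φ : ℝ) * I) * (G.coeff j * exp (φ * I) ^ j) =
        G.coeff j * exp ((-((((k + 1 : ℕ) - (j:ℤ) : ℤ)) * φ) : ℝ) * I) := by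
      rw [← Complex.exp_nat_mul, mul_left_comm, ← Complex.exp_add]
      congr 2; push_cast; ring
    rw [this, mul_re, exp_ofReal_mul_I_re, exp_ofReal_mul_I_im, Real.cos_neg, Real.sin_neg]
    ring
  have hb : ∀ φ : ℝ, |(exp (-((k + 1 : ℕ) * φ : ℝ) * I) * G.eval (exp (φ * I))).re| ≤
      ‖G.eval (exp (φ * I))‖ := by
    intro φ
    refine (Complex.abs_re_le_norm _).trans ?_
    rw [norm_mul, ← ofReal_neg, Complex.norm_exp_ofReal_mul_I, one_mul]
  have hPe : 2 * P.eval (Real.cos θ) =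
      (exp (-((k + 1 : ℕ) * θ : ℝ) * I) * G.eval (exp (θ * I))).re +
      (exp (-((k + 1 : ℕ) * (-θ) : ℝ) * I) * G.eval (exp ((-θ : ℝ) * I))).re := by
    rw [hre, hre, ← Finset.sum_add_distrib, hP, eval_finsetSum, Finset.mul_sum]
    refine Finset.sum_congr rfl (fun j _ => ?_)
    rw [eval_mul, eval_C, Chebyshev.T_real_cos, mul_neg, Real.cos_neg, Real.sin_neg]
    ring
  have v1 := h.val θ
  have v2 := h.val (-θ)
  rw [Real.cos_neg] at v2
  have b1 := hb θ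
  have b2 := hb (-θ)
  have hA := h.pos
  have : A * |P.eval (Real.cos θ)| ≤ f (Real.cos θ) := by
    have h2 : |2 * P.eval (Real.cos θ)| ≤ ‖G.eval (exp (θ * I))‖ + ‖G.eval (exp ((-θ : ℝ) * I))‖ := by
      rw [hPe]; exact (abs_add_le _ _).trans (add_le_add b1 b2)
    rw [abs_mul, abs_two] at h2
    nlinarith
  rw [eval_mul, eval_C, abs_mul, abs_of_pos (by positivity : (0:ℝ) < (2 ^ k)⁻¹)]
  calc A * 2 ^ k * ((2 ^ k)⁻¹ * |P.eval (Real.cos θ)|) = A * |P.eval (Real.cos θ)| := by field_simp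
    _ ≤ _ := this

end Pool.Agent.H.MP_410a69_an
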