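import Pool.Agent.H.MP_410a69_an.A

set_option autoImplicit false
open Polynomial MeasureTheory Finset

namespace Pool.Agent.H.MP_410a69_an

noncomputable def lam (w : ℝ → ℝ) (k : ℕ) : ℝ :=
  sInf {t : ℝ | ∃ q : Polynomial ℝ, q.Monic ∧ q.natDegree = k ∧
    t = Real.sqrt (∫ x in (-1:ℝ)..1, (q.eval x) ^ 2 * w x)}

lemma lam_le (w : ℝ → ℝ) (q : ℝ[X]) (hq : q.Monic) :
    lam w q.natDegree ≤ Real.sqrt (∫ x in (-1:ℝ)..1, (q.eval x) ^ 2 * w x) :=
  csInf_le ⟨0, by rintro t ⟨q, -, -, rfl⟩; exact Real.sqrt_nonneg _⟩ ⟨q, hq, rfl, rfl⟩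

lemma lam_nonneg (w : ℝ → ℝ) (k : ℕ) : 0 ≤ lam w k :=
  Real.sInf_nonneg (by rintro t ⟨q, -, -, rfl⟩; exact Real.sqrt_nonneg _)

lemma w_int {w : ℝ → ℝ} (hm : Measurable w) (h0 : ∀ x, 0 ≤ w x) {M : ℝ} (hM : ∀ x, w x ≤ M)
    {g : ℝ → ℝ} (hg : Continuous g) :
    IntervalIntegrable (fun x => g x * w x) volume (-1) 1 := by
  refine IntervalIntegrable.continuousOn_mul ?_ hg.continuousOn
  refine (intervalIntegrable_const (c := M)).mono_fun' hm.aestronglyMeasurable ?_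
  refine Filter.Eventually.of_forall (fun x => ?_)
  simp only [Real.norm_eq_abs, abs_of_nonneg (h0 x), hM x]

lemma bm1 {w : ℝ → ℝ} (hm : Measurable w) (h0 : ∀ x, 0 ≤ w x) {M : ℝ} (hM : ∀ x, w x ≤ M)
    (k : ℕ) (p : ℝ[X]) (hp : p.natDegree ≤ k) (τ H ρ : ℝ) (hτ : 0 < τ)
    (hτ2 : τ ^ 2 = ∫ x in (-1:ℝ)..1, (p.eval x) ^ 2 * w x) (hH : 0 < H)
    (hl : Real.sqrt (1 + 2 * M) ≤ lam w (k + 1) * 2 ^ k * Real.exp H)
    (r0 : 0 < ρ) (r1 : ρ < 1) (x : ℝ) (hx : x ∈ Set.Icc (-1:ℝ) 1) :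
    ρ ^ (2 * k) * |p.eval x| ≤ τ * Real.exp (H + 2 * H * ρ / (1 - ρ)) := by
  have hM0 : 0 ≤ M := (h0 0).trans (hM 0)
  set r : ℂ[X] := p.map (algebraMap ℝ ℂ) + C (τ * Complex.I) with hr
  have hrd : r.natDegree ≤ k := by
    rw [hr, natDegree_add_C]; exact natDegree_map_le.trans hp
  have hre : ∀ y : ℝ, ‖r.eval (y:ℂ)‖ = Real.sqrt ((p.eval y) ^ 2 + τ ^ 2) := by
    intro y
    have : (p.map (algebraMap ℝ ℂ)).eval (y:ℂ) = ((p.eval y : ℝ) : ℂ) := by
      have := eval_map_algebraMap p (y:ℂ) (R := ℝ)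
      rw [this]; exact aeval_algebraMap_apply_eq_algebraMap_eval y p
    rw [hr, eval_add, eval_C, this, Complex.norm_add_mul_I]
  have hge : ∀ y : ℝ, τ ≤ ‖r.eval (y:ℂ)‖ := fun y => by
    rw [hre]; exact Real.le_sqrt_of_sq_le (by nlinarith [sq_nonneg (p.eval y)])
  obtain ⟨A, G, L, h⟩ := fac r (fun y _ hy => by
    have := hge y; rw [hy, norm_zero] at this; linarith)
  obtain ⟨Q, hQ, hQd, hQb⟩ := h.monic k hrd
  have hA := h.pos
  have hQ2 : ∀ y ∈ Set.Icc (-1:ℝ) 1, (A * 2 ^ k) ^ 2 * ((Q.eval y) ^ 2 * w y) ≤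
      (p.eval y) ^ 2 * w y + τ ^ 2 * M := by
    intro y hy
    have h1 := hQb (Real.arccos y)
    simp only [Real.cos_arccos hy.1 hy.2, hre] at h1
    have h2 : (A * 2 ^ k * |Q.eval y|) ^ 2 ≤ (p.eval y) ^ 2 + τ ^ 2 := by
      rw [← Real.sq_sqrt (by positivity : 0 ≤ (p.eval y) ^ 2 + τ ^ 2)]
      gcongr
    rw [mul_pow _ |Q.eval y|, sq_abs] at h2
    have := mul_le_mul_of_nonneg_right h2 (h0 y)
    have h3 := mul_le_mul_of_nonneg_left (hM y) (sq_nonneg τ)
    nlinarith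
  have i1 := w_int hm h0 hM (g := fun y => (Q.eval y) ^ 2) (by fun_prop)
  have i2 := w_int hm h0 hM (g := fun y => (p.eval y) ^ 2) (by fun_prop)
  have hI := intervalIntegral.integral_mono_on (by norm_num : (-1:ℝ) ≤ 1) (i1.const_mul _)
    (i2.add intervalIntegrable_const) hQ2
  rw [intervalIntegral.integral_const_mul, intervalIntegral.integral_add i2 intervalIntegrable_const,
    ← hτ2, intervalIntegral.integral_const, smul_eq_mul] at hI
  have hlam := lam_le w Q hQ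
  rw [hQd] at hlam
  have hlp : 0 < lam w (k + 1) := by
    have : 0 < Real.sqrt (1 + 2 * M) := Real.sqrt_pos.2 (by positivity)
    by_contra hh
    have : lam w (k + 1) = 0 := le_antisymm (not_lt.1 hh) (lam_nonneg _ _)
    rw [this] at hl; simp at hl; linarith
  have h5 : A * 2 ^ k * lam w (k + 1) ≤ τ * Real.sqrt (1 + 2 * M) := by
    calc A * 2 ^ k * lam w (k + 1)
        ≤ A * 2 ^ k * Real.sqrt (∫ x in (-1:ℝ)..1, (Q.eval x) ^ 2 * w x) := by gcongr
      _ = Real.sqrt ((A * 2 ^ k) ^ 2 * ∫ x in (-1:ℝ)..1, (Q.eval x) ^ 2 * w x) := by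
          rw [Real.sqrt_mul (sq_nonneg _), Real.sqrt_sq (by positivity)]
      _ ≤ Real.sqrt (τ ^ 2 * (1 + 2 * M)) := Real.sqrt_le_sqrt (by linarith)
      _ = _ := by rw [Real.sqrt_mul (sq_nonneg _), Real.sqrt_sq hτ.le]
  have h6 : A ≤ τ * Real.exp H := by
    have h7 : A * (2 ^ k * lam w (k + 1)) ≤ τ * Real.exp H * (2 ^ k * lam w (k + 1)) := by
      have := mul_le_mul_of_nonneg_left hl hτ.le
      linarith
    exact le_of_mul_le_mul_right h7 (by positivity)
  have h8 := h.bound τ H ρ hτ hH h6 (fun θ => hge _) r0 r1 (Real.arccos x)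
  simp only [Real.cos_arccos hx.1 hx.2, hre] at h8
  refine le_trans ?_ h8
  have h9 : |p.eval x| ≤ Real.sqrt ((p.eval x) ^ 2 + τ ^ 2) :=
    Real.le_sqrt_of_sq_le (by rw [sq_abs]; nlinarith [sq_nonneg τ])
  have h10 : ρ ^ (2 * k) ≤ ρ ^ (2 * r.natDegree) := pow_le_pow_of_le_one r0.le r1.le (by omega)
  gcongr

lemma blocks (t : ℕ → ℝ) (N : ℕ) (x : ℝ) (n : ℕ)
    (ht : ∀ a b, a ≤ b → b < (n + 1) * N → t a ≤ t b) :
    ∃ j, j ≤ n ∧ (∏ i ∈ range n, |x - t ((i + 1) * N)|) ^ N * ∏ s ∈ range N, |x - t (j * N + s)| ≤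
      ∏ i ∈ range (n + 1), ∏ s ∈ range N, |x - t (i * N + s)| := by
  induction n with
  | zero => exact ⟨0, le_rfl, by simp⟩
  | succ n ih =>
    by_cases hx : x ≤ t ((n + 1) * N)
    · obtain ⟨j, hj, h⟩ := ih (fun a b hab hb => ht a b hab (by nlinarith))
      refine ⟨j, by omega, ?_⟩
      rw [prod_range_succ, prod_range_succ _ (n + 1), mul_pow, mul_right_comm]
      refine mul_le_mul h ?_ (by positivity) (by positivity)
      rw [← card_range N, ← prod_const, card_range]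
      refine prod_le_prod (fun _ _ => abs_nonneg _) (fun s hs => ?_)
      have := ht ((n + 1) * N) ((n + 1) * N + s) (by omega) (by have := mem_range.1 hs; nlinarith)
      rw [abs_of_nonpos (by linarith), abs_of_nonpos (by linarith)]; linarith
    · refine ⟨n + 1, le_rfl, ?_⟩
      rw [prod_range_succ _ (n + 1), ← prod_pow]
      refine mul_le_mul_of_nonneg_right ?_ (by positivity)
      refine prod_le_prod (fun _ _ => by positivity) (fun i hi => ?_)
      rw [← card_range N, ← prod_const, card_range]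
      refine prod_le_prod (fun _ _ => abs_nonneg _) (fun s hs => ?_)
      have hs' := mem_range.1 hs
      have hi' : i + 1 ≤ n + 1 := mem_range.1 hi
      have h3 : (i + 1) * N ≤ (n + 1) * N := Nat.mul_le_mul_right _ hi'
      have h1 := ht (i * N + s) ((i + 1) * N) (by nlinarith) (by nlinarith)
      have h2 := ht ((i + 1) * N) ((n + 1) * N) h3 (by nlinarith)
      push Not at hx
      rw [abs_of_nonneg (by linarith), abs_of_nonneg (by linarith)]; linarith

lemma prod_blocks {β : Type*} [CommMonoid β] (f : ℕ → β) (N n : ℕ) :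
    ∏ l ∈ range (n * N), f l = ∏ i ∈ range n, ∏ s ∈ range N, f (i * N + s) := by
  induction n with
  | zero => simp
  | succ n ih => rw [Nat.succ_mul, prod_range_add, ih, prod_range_succ]

lemma sum_blocks (f : ℕ → ℝ) (N n : ℕ) :
    ∑ l ∈ range (n * N), f l = ∑ i ∈ range n, ∑ s ∈ range N, f (i * N + s) := by
  induction n with
  | zero => simp
  | succ n ih => rw [Nat.succ_mul, sum_range_add, ih, sum_range_succ]

lemma amgm (a : ℕ → ℝ) (N : ℕ) (hN : 0 < N) (ha : ∀ s, 0 ≤ a s) :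
    ∏ s ∈ range N, a s ≤ ((∑ s ∈ range N, a s) / N) ^ N := by
  have h := Real.geom_mean_le_arith_mean (range N) (fun _ => 1) a (by simp) (by simpa using hN)
    (fun s _ => ha s)
  simp only [Real.rpow_one, one_mul, sum_const, card_range, nsmul_eq_mul, mul_one] at h
  have h0 : 0 ≤ ∏ s ∈ range N, a s := prod_nonneg (fun s _ => ha s)
  rw [← Real.rpow_inv_natCast_pow h0 hN.ne']
  exact pow_le_pow_left₀ (by positivity) h N

lemma sorted_roots (q : ℝ[X]) (hq : q.Monic) (m : ℕ) : ∃ t : ℕ → ℝ,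
    (∀ l, t l ∈ Set.Icc (-1:ℝ) 1) ∧ (∀ a b, a ≤ b → b < m * q.natDegree → t a ≤ t b) ∧
    ∀ x ∈ Set.Icc (-1:ℝ) 1, ∏ l ∈ range (m * q.natDegree), |x - t l| ≤ |q.eval x| ^ m := by
  set qc : ℂ[X] := q.map (algebraMap ℝ ℂ) with hqc
  have hsp : qc.Splits := IsAlgClosed.splits qc
  have hqm : qc.Monic := hq.map _
  have hc : qc.roots.card = q.natDegree := by
    rw [← hsp.natDegree_eq_card_roots, hqc, hq.natDegree_map]
  let pr : ℂ → ℝ := fun z => max (-1) (min 1 z.re)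
  have hpr : ∀ z, pr z ∈ Set.Icc (-1:ℝ) 1 := fun z =>
    ⟨le_max_left _ _, max_le (by norm_num) (min_le_left _ _)⟩
  set T : Multiset ℝ := m • qc.roots.map pr with hT
  set l := T.sort (· ≤ ·) with hl
  have hlen : l.length = m * q.natDegree := by
    rw [hl, Multiset.length_sort, hT, Multiset.card_nsmul, Multiset.card_map, hc]
  have hmem : ∀ y ∈ l, y ∈ Set.Icc (-1:ℝ) 1 := by
    intro y hy
    rw [hl, Multiset.mem_sort] at hy
    obtain ⟨z, -, rfl⟩ := Multiset.mem_map.1 (Multiset.mem_of_mem_nsmul hy)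
    exact hpr z
  refine ⟨fun i => l.getD i 0, fun i => ?_, fun a b hab hb => ?_, fun x hx => ?_⟩
  · by_cases hi : i < l.length
    · simp only [List.getD_eq_getElem _ _ hi]; exact hmem _ (List.getElem_mem _)
    · simp only [List.getD_eq_default _ _ (not_lt.1 hi)]; simp
  · rw [← hlen] at hb
    simp only [List.getD_eq_getElem _ _ hb, List.getD_eq_getElem _ _ (hab.trans_lt hb)]
    exact (Multiset.pairwise_sort T (· ≤ ·)).rel_get_of_le (a := ⟨a, hab.trans_lt hb⟩) (b := ⟨b, hb⟩) hab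
  · have e1 : ∏ i ∈ range (m * q.natDegree), |x - l.getD i 0| = (T.map (fun y => |x - y|)).prod := by
      rw [← hlen, Finset.prod_range, ← Multiset.sort_eq T (· ≤ ·), ← hl, Multiset.map_coe,
        Multiset.prod_coe, ← Fin.prod_univ_fun_getElem]
      exact Finset.prod_congr rfl (fun i _ => by rw [List.getD_eq_getElem _ _ i.2])
    rw [e1, hT, Multiset.map_nsmul, Multiset.prod_nsmul, Multiset.map_map]
    refine pow_le_pow_left₀ (Multiset.prod_nonneg (by
      intro a ha; obtain ⟨z, -, rfl⟩ := Multiset.mem_map.1 ha; exact abs_nonneg _)) ?_ m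
    have e2 : |q.eval x| = ‖qc.eval (x:ℂ)‖ := by
      have : qc.eval (x:ℂ) = ((q.eval x : ℝ) : ℂ) := by
        have := eval_map_algebraMap q (x:ℂ) (R := ℝ)
        rw [hqc, this]; exact aeval_algebraMap_apply_eq_algebraMap_eval x q
      rw [this, Complex.norm_real, Real.norm_eq_abs]
    rw [e2, hsp.eval_eq_prod_roots, hqm.leadingCoeff, one_mul]
    generalize qc.roots = s
    induction s using Multiset.induction_on with
    | empty => simp
    | cons z s ih =>
      simp only [Multiset.map_cons, Multiset.prod_cons, norm_mul, Function.comp]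
      refine mul_le_mul ?_ ih (Multiset.prod_nonneg (by
        intro a ha; obtain ⟨z, -, rfl⟩ := Multiset.mem_map.1 ha; exact abs_nonneg _)) (norm_nonneg _)
      refine le_trans ?_ (Complex.abs_re_le_norm _)
      simp only [Complex.sub_re, Complex.ofReal_re, pr]
      obtain ⟨h1, h2⟩ := hx
      rcases le_total 1 z.re with h | h
      · rw [min_eq_left h, max_eq_right (by norm_num), abs_of_nonpos (by linarith),
          abs_of_nonpos (by linarith)]; linarith
      · rw [min_eq_right h]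
        rcases le_total (-1) z.re with h' | h'
        · rw [max_eq_right h']
        · rw [max_eq_left h', abs_of_nonneg (by linarith), abs_of_nonneg (by linarith)]; linarith

lemma disc (q : ℝ[X]) (hq : q.Monic) (hN : 0 < q.natDegree) (n : ℕ) (γ : ℝ) (hγ : 0 ≤ γ) :
    ∃ (p : ℝ[X]) (t : ℕ → ℝ), p.Monic ∧ p.natDegree = n ∧ (∀ l, t l ∈ Set.Icc (-1:ℝ) 1) ∧
    ∀ x ∈ Set.Icc (-1:ℝ) 1, (∀ l, x ≠ t l) → |q.eval x| ≤ (γ ^ 2) ^ q.natDegree →
      Real.sqrt |p.eval x| ≤ γ ^ (n + 1) *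
        ((∑ l ∈ range ((n + 1) * q.natDegree), |x - t l| ^ (-(1 / 2) : ℝ)) / q.natDegree) := by
  obtain ⟨t, ht1, ht2, ht3⟩ := sorted_roots q hq (n + 1)
  set N := q.natDegree with hNd
  refine ⟨∏ i ∈ range n, (X - C (t ((i + 1) * N))), t, monic_prod_of_monic _ _ (fun i _ => monic_X_sub_C _),
    ?_, ht1, fun x hx hxt hqx => ?_⟩
  · rw [natDegree_prod_of_monic _ _ (fun i _ => monic_X_sub_C _)]; simp
  obtain ⟨j, hj, h⟩ := blocks t N x n ht2
  rw [← prod_blocks (fun l => |x - t l|)] at h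
  have h2 := h.trans ((ht3 x hx).trans (pow_le_pow_left₀ (abs_nonneg _) hqx _))
  have e1 : |(∏ i ∈ range n, (X - C (t ((i + 1) * N)))).eval x| = ∏ i ∈ range n, |x - t ((i + 1) * N)| := by
    rw [eval_prod, Finset.abs_prod]; simp
  rw [e1]
  set P := ∏ i ∈ range n, |x - t ((i + 1) * N)| with hP
  have hP0 : 0 ≤ P := prod_nonneg (fun _ _ => abs_nonneg _)
  have hpos : ∀ l, 0 < |x - t l| := fun l => abs_pos.2 (sub_ne_zero.2 (hxt l))
  set a : ℕ → ℝ := fun l => |x - t l| ^ (-(1 / 2) : ℝ) with ha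
  have ha0 : ∀ l, 0 < a l := fun l => Real.rpow_pos_of_pos (hpos l) _
  have ha2 : ∀ l, a l ^ 2 * |x - t l| = 1 := fun l => by
    rw [ha]; simp only
    rw [← Real.rpow_natCast, ← Real.rpow_mul (hpos l).le, ← Real.rpow_add_one (hpos l).ne']
    norm_num
  set B := ∏ s ∈ range N, a (j * N + s) with hB
  have hB0 : 0 < B := prod_pos (fun _ _ => ha0 _)
  have hB2 : B ^ 2 * ∏ s ∈ range N, |x - t (j * N + s)| = 1 := by
    rw [hB, ← prod_pow, ← prod_mul_distrib]; exact prod_eq_one (fun s _ => ha2 _)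
  have h3 : (Real.sqrt P ^ N) ^ 2 ≤ ((γ ^ (n + 1)) ^ N * B) ^ 2 := by
    rw [← pow_mul, mul_comm N 2, pow_mul, Real.sq_sqrt hP0]
    calc P ^ N = B ^ 2 * (P ^ N * ∏ s ∈ range N, |x - t (j * N + s)|) := by
          linear_combination (-P ^ N) * hB2
      _ ≤ B ^ 2 * ((γ ^ 2) ^ N) ^ (n + 1) := by gcongr
      _ = _ := by ring
  have h4 := (abs_le_of_sq_le_sq' h3 (by positivity)).2
  have h5 := amgm (fun s => a (j * N + s)) N hN (fun s => (ha0 _).le)
  have h6 : ∑ s ∈ range N, a (j * N + s) ≤ ∑ l ∈ range ((n + 1) * N), a l := by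
    rw [sum_blocks]
    exact single_le_sum (f := fun i => ∑ s ∈ range N, a (i * N + s))
      (fun i _ => sum_nonneg (fun s _ => (ha0 _).le)) (mem_range.2 (by omega))
  have h7 : 0 ≤ ∑ s ∈ range N, a (j * N + s) := sum_nonneg (fun s _ => (ha0 _).le)
  refine le_of_pow_le_pow_left₀ hN.ne' (by have := h7.trans h6; positivity) (h4.trans ?_)
  rw [mul_pow]
  gcongr
  exact h5.trans (by gcongr)

end Pool.Agent.H.MP_410a69_an
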