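import Pool.Agent.H.MP_410a69_an.B

set_option autoImplicit false
open Polynomial MeasureTheory Finset Filter Topology

namespace Pool.Agent.H.MP_410a69_an

lemma phi_int (a b : ℝ) : IntervalIntegrable (fun y : ℝ => |y| ^ (-(1 / 2) : ℝ)) volume a b := by
  have h : IntegrableOn (fun y : ℝ => |y| ^ (-(1 / 2) : ℝ)) (Metric.ball 0 (|a| + |b| + 1)) volume := by
    refine integrableOn_ball_of_norm_le_rpow (C := 1) (α := 1 / 2) (by simp) (by simp; norm_num) ?_ ?_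
    · refine Eventually.of_forall (fun y => ?_)
      rw [Real.norm_eq_abs, abs_of_nonneg (by positivity), one_mul, Real.norm_eq_abs]
    · exact (Measurable.pow_const (by fun_prop) _).aestronglyMeasurable
  refine (h.mono_set ?_).intervalIntegrable
  intro y hy
  rw [mem_ball_zero_iff, Real.norm_eq_abs, abs_lt]
  have := le_abs_self a; have := le_abs_self b; have := neg_abs_le a; have := neg_abs_le b
  rcases Set.mem_uIcc.1 hy with h | h <;> constructor <;> linarith [h.1, h.2, abs_nonneg a, abs_nonneg b]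

noncomputable def KK : ℝ := ∫ y in (-2:ℝ)..2, |y| ^ (-(1 / 2) : ℝ)

lemma phi_int' (t : ℝ) :
    IntervalIntegrable (fun y : ℝ => |y - t| ^ (-(1 / 2) : ℝ)) volume (-1) 1 := by
  simpa using (phi_int (-1 - t) (1 - t)).comp_sub_right t

lemma phi_le (t : ℝ) (ht : t ∈ Set.Icc (-1:ℝ) 1) :
    ∫ y in (-1:ℝ)..1, |y - t| ^ (-(1 / 2) : ℝ) ≤ KK := by
  rw [intervalIntegral.integral_comp_sub_right (fun y : ℝ => |y| ^ (-(1 / 2) : ℝ)) t]
  refine intervalIntegral.integral_mono_interval (by linarith [ht.2]) (by linarith) (by linarith [ht.1])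
    (Eventually.of_forall (fun y => by positivity)) (phi_int _ _)

lemma KK_nonneg : 0 ≤ KK := intervalIntegral.integral_nonneg (by norm_num) (fun y _ => by positivity)

lemma est {w : ℝ → ℝ} (hm : Measurable w) (h0 : ∀ x, 0 ≤ w x) {M : ℝ} (hM : ∀ x, w x ≤ M)
    (F : Set ℝ) (hF : MeasurableSet F) (ε : ℝ) (hε : 0 ≤ ε)
    (hD : volume ({x : ℝ | x ∈ Set.Icc (-1:ℝ) 1 ∧ 0 < w x} \ F) ≤ ENNReal.ofReal ε)
    (q : ℝ[X]) (hq : q.Monic) (hN : 0 < q.natDegree) (n : ℕ) (γ : ℝ) (hγ : 0 ≤ γ)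
    (hqF : ∀ x ∈ F, |q.eval x| ≤ (γ ^ 2) ^ q.natDegree) :
    ∃ p : ℝ[X], p.Monic ∧ p.natDegree = n ∧ ∀ σ : ℝ, 0 ≤ σ →
      (∀ x ∈ Set.Icc (-1:ℝ) 1, |p.eval x| ≤ σ ^ 2) →
      ∫ x in (-1:ℝ)..1, (p.eval x) ^ 2 * w x ≤ M * σ ^ 3 * γ ^ (n + 1) * (n + 1) * KK + M * σ ^ 4 * ε := by
  obtain ⟨p, t, hp, hpd, ht, h⟩ := disc q hq hN n γ hγ
  refine ⟨p, hp, hpd, fun σ hσ hpσ => ?_⟩
  have hM0 : 0 ≤ M := (h0 0).trans (hM 0)
  set N := q.natDegree with hNd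
  set D := {x : ℝ | x ∈ Set.Icc (-1:ℝ) 1 ∧ 0 < w x} \ F with hDd
  have hDm : MeasurableSet D :=
    (measurableSet_Icc.inter (measurableSet_lt measurable_const hm)).diff hF
  have hDf : volume D ≠ ⊤ := ne_top_of_le_ne_top ENNReal.ofReal_ne_top hD
  have i1 := w_int hm h0 hM (g := fun y => (p.eval y) ^ 2) (by fun_prop)
  have i2 : IntervalIntegrable (fun x : ℝ => ∑ l ∈ range ((n + 1) * N), |x - t l| ^ (-(1 / 2) : ℝ))
      volume (-1) 1 := by
    have := IntervalIntegrable.sum (range ((n + 1) * N)) (fun l _ => phi_int' (t l))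
    rwa [Finset.sum_fn] at this
  have i3' : Integrable (D.indicator (fun _ => (1:ℝ))) volume :=
    (integrable_indicator_iff hDm).2 (integrableOn_const hDf)
  have i3 : IntervalIntegrable (D.indicator (fun _ => (1:ℝ))) volume (-1) 1 := i3'.intervalIntegrable
  have hae : ∀ᵐ x ∂(volume.restrict (Set.Icc (-1:ℝ) 1)), (p.eval x) ^ 2 * w x ≤
      M * σ ^ 3 * γ ^ (n + 1) / N * (∑ l ∈ range ((n + 1) * N), |x - t l| ^ (-(1 / 2) : ℝ))
        + M * σ ^ 4 * D.indicator (fun _ => (1:ℝ)) x := by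
    have h1 : ∀ᵐ x ∂(volume : Measure ℝ), x ∉ Set.range t := (Set.countable_range t).ae_notMem _
    filter_upwards [ae_restrict_of_ae h1, ae_restrict_mem measurableSet_Icc] with x hx1 hx
    have s0 : 0 ≤ ∑ l ∈ range ((n + 1) * N), |x - t l| ^ (-(1 / 2) : ℝ) :=
      sum_nonneg (fun l _ => by positivity)
    have s1 : 0 ≤ D.indicator (fun _ => (1:ℝ)) x := Set.indicator_nonneg (fun _ _ => zero_le_one) x
    have e1 : (p.eval x) ^ 2 = Real.sqrt |p.eval x| ^ 4 := by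
      rw [show 4 = 2 * 2 from rfl, pow_mul, Real.sq_sqrt (abs_nonneg _), sq_abs]
    have s2 : Real.sqrt |p.eval x| ≤ σ := Real.sqrt_le_iff.2 ⟨hσ, hpσ x hx⟩
    rcases (h0 x).eq_or_lt with hw | hw
    · rw [← hw, mul_zero]; positivity
    by_cases hxF : x ∈ F
    · have h2 := h x hx (fun l hl => hx1 ⟨l, hl.symm⟩) (hqF x hxF)
      refine le_trans ?_ (le_add_of_nonneg_right (by positivity))
      rw [e1]
      calc Real.sqrt |p.eval x| ^ 4 * w x = w x * Real.sqrt |p.eval x| ^ 3 * Real.sqrt |p.eval x| := by ring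
        _ ≤ M * σ ^ 3 * (γ ^ (n + 1) *
          ((∑ l ∈ range ((n + 1) * N), |x - t l| ^ (-(1 / 2) : ℝ)) / N)) := by
            gcongr; exact hM x
        _ = _ := by ring
    · have hxD : x ∈ D := ⟨⟨hx, hw⟩, hxF⟩
      refine le_trans ?_ (le_add_of_nonneg_left (by positivity))
      rw [e1, Set.indicator_of_mem hxD, mul_one, mul_comm]
      gcongr; exact hM x
  have hI := intervalIntegral.integral_mono_ae_restrict (by norm_num : (-1:ℝ) ≤ 1) i1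
    ((i2.const_mul _).add (i3.const_mul _)) hae
  rw [intervalIntegral.integral_add (i2.const_mul _) (i3.const_mul _),
    intervalIntegral.integral_const_mul, intervalIntegral.integral_const_mul,
    intervalIntegral.integral_finsetSum (fun l _ => phi_int' (t l))] at hI
  refine hI.trans (add_le_add ?_ ?_)
  · have h1 : ∑ l ∈ range ((n + 1) * N), ∫ x in (-1:ℝ)..1, |x - t l| ^ (-(1 / 2) : ℝ) ≤
        ((n + 1) * N : ℕ) * KK := by
      have := sum_le_card_nsmul (range ((n + 1) * N)) _ KK (fun l _ => phi_le (t l) (ht l))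
      rwa [card_range, nsmul_eq_mul] at this
    have hN' : (0:ℝ) < N := by exact_mod_cast hN
    calc _ ≤ M * σ ^ 3 * γ ^ (n + 1) / N * (((n + 1) * N : ℕ) * KK) := by gcongr
      _ = _ := by push_cast; field_simp
  · gcongr
    rw [intervalIntegral.integral_of_le (by norm_num)]
    refine (setIntegral_le_integral i3' (Eventually.of_forall (fun x =>
      Set.indicator_nonneg (fun _ _ => zero_le_one) x))).trans ?_
    rw [integral_indicator hDm, setIntegral_const, smul_eq_mul, mul_one]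
    exact ENNReal.toReal_le_of_le_ofReal hε hD

lemma lam_ge {w : ℝ → ℝ} (h : Tendsto (fun k : ℕ => lam w k ^ ((1:ℝ) / k)) atTop (𝓝 (1 / 2)))
    (δ : ℝ) (hδ : 0 < δ) : ∀ᶠ k : ℕ in atTop, (Real.exp (-δ) / 2) ^ k ≤ lam w k := by
  have h1 : Real.exp (-δ) / 2 < 1 / 2 := by
    have := Real.exp_lt_one_iff.2 (by linarith : -δ < 0); linarith
  filter_upwards [h.eventually (lt_mem_nhds h1), eventually_gt_atTop 0] with k hk hk0
  rw [← Real.rpow_inv_natCast_pow (lam_nonneg w k) hk0.ne', ← one_div]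
  exact pow_le_pow_left₀ (by positivity) hk.le k

lemma params (c : ℝ) (hc0 : 0 < c) (hc : c < 1 / 2) : ∃ ρ δ : ℝ, 0 < ρ ∧ ρ < 1 ∧ 0 < δ ∧
    2 * c * (Real.exp (δ + 2 * δ * ρ / (1 - ρ)) / ρ ^ 2) ^ 3 * Real.exp δ < 1 := by
  have h1 : Tendsto (fun ρ : ℝ => ρ ^ 6) (𝓝[<] 1) (𝓝 1) := by
    have : Tendsto (fun ρ : ℝ => ρ ^ 6) (𝓝 1) (𝓝 (1 ^ 6)) := (continuous_pow 6).tendsto 1
    rw [one_pow] at this
    exact this.mono_left nhdsWithin_le_nhds
  obtain ⟨ρ, hρ1, hρ2⟩ := ((h1.eventually (lt_mem_nhds (by linarith : 2 * c < 1))).and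
    (Ioo_mem_nhdsLT (by norm_num : (0:ℝ) < 1))).exists
  have h2 : Tendsto (fun δ : ℝ => 2 * c * (Real.exp (δ + 2 * δ * ρ / (1 - ρ)) / ρ ^ 2) ^ 3 * Real.exp δ)
      (𝓝[>] 0) (𝓝 (2 * c * (Real.exp (0 + 2 * 0 * ρ / (1 - ρ)) / ρ ^ 2) ^ 3 * Real.exp 0)) := by
    refine Tendsto.mono_left (Continuous.tendsto (by fun_prop) 0) nhdsWithin_le_nhds
  have h3 : 2 * c * (Real.exp (0 + 2 * 0 * ρ / (1 - ρ)) / ρ ^ 2) ^ 3 * Real.exp 0 < 1 := by
    have := hρ2.1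
    simp only [mul_zero, zero_mul, zero_div, add_zero, Real.exp_zero, mul_one]
    rw [div_pow, one_pow, ← pow_mul, mul_one_div, div_lt_one (by positivity)]
    exact hρ1
  obtain ⟨δ, hδ1, hδ2⟩ := ((h2.eventually (gt_mem_nhds h3)).and self_mem_nhdsWithin).exists
  exact ⟨ρ, δ, hρ2.1, hρ2.2, hδ2, hδ1⟩

lemma main {w : ℝ → ℝ} (hm : Measurable w) (h0 : ∀ x, 0 ≤ w x) {M : ℝ} (hM : ∀ x, w x ≤ M)
    (h : Tendsto (fun k : ℕ => lam w k ^ ((1:ℝ) / k)) atTop (𝓝 (1 / 2)))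
    (c : ℝ) (hc0 : 0 < c) (hc : c < 1 / 2) : ∃ ε : ℝ, 0 < ε ∧ ∀ F : Set ℝ, MeasurableSet F →
      volume ({x : ℝ | x ∈ Set.Icc (-1:ℝ) 1 ∧ 0 < w x} \ F) ≤ ENNReal.ofReal ε →
      ∀ q : ℝ[X], q.Monic → 0 < q.natDegree → (∀ x ∈ F, |q.eval x| ≤ c ^ q.natDegree) → False := by
  have hM0 : 0 ≤ M := (h0 0).trans (hM 0)
  obtain ⟨ρ, δ, r0, r1, hδ, hb⟩ := params c hc0 hc
  set b := Real.exp (δ + 2 * δ * ρ / (1 - ρ)) / ρ ^ 2 with hbd
  have hb0 : 0 < b := by positivity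
  set r := 2 * c * b ^ 3 * Real.exp δ with hr
  have hr0 : 0 < r := by positivity
  have t1 : Tendsto (fun k : ℕ => 4 * M ^ 2 * KK ^ 2 * c * ((k:ℝ) ^ 2 * r ^ k + 2 * ((k:ℝ) ^ 1 * r ^ k) + (k:ℝ) ^ 0 * r ^ k))
      atTop (𝓝 (4 * M ^ 2 * KK ^ 2 * c * (0 + 2 * 0 + 0))) := by
    have ha : |r| < 1 := by rwa [abs_of_pos hr0]
    exact (((tendsto_pow_const_mul_const_pow_of_abs_lt_one 2 ha).add
      ((tendsto_pow_const_mul_const_pow_of_abs_lt_one 1 ha).const_mul 2)).add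
      (tendsto_pow_const_mul_const_pow_of_abs_lt_one 0 ha)).const_mul _
  have t2 : Tendsto (fun k : ℕ => Real.exp (-(δ / 2)) / 2 * Real.exp (δ / 2) ^ k) atTop atTop :=
    (tendsto_pow_atTop_atTop_of_one_lt (Real.one_lt_exp_iff.2 (by positivity))).const_mul_atTop (by positivity)
  have t3 := (tendsto_add_atTop_nat 1).eventually (lam_ge h (δ / 2) (by positivity))
  obtain ⟨k, ⟨⟨⟨k1, k2⟩, k3⟩, k4⟩, k5⟩ := (((((t1.eventually (gt_mem_nhds (by norm_num : _ < (1:ℝ)))).and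
    (t2.eventually_ge_atTop (Real.sqrt (1 + 2 * M)))).and t3).and (lam_ge h δ hδ)).and
    (eventually_gt_atTop 0)).exists
  refine ⟨1 / (2 * (M + 1) * (b ^ k) ^ 2), by positivity, fun F hF hD q hq hN hqF => ?_⟩
  obtain ⟨p, hp, hpd, hpe⟩ := est hm h0 hM F hF _ (by positivity) hD q hq hN k (Real.sqrt c)
    (Real.sqrt_nonneg _) (by rwa [Real.sq_sqrt hc0.le])
  set τ := Real.sqrt (∫ x in (-1:ℝ)..1, (p.eval x) ^ 2 * w x) with hτ
  have hτ1 : (Real.exp (-δ) / 2) ^ k ≤ τ := by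
    have := lam_le w p hp
    rw [hpd] at this; exact k4.trans this
  have hτ0 : 0 < τ := lt_of_lt_of_le (by positivity) hτ1
  have hτ2 : τ ^ 2 = ∫ x in (-1:ℝ)..1, (p.eval x) ^ 2 * w x :=
    Real.sq_sqrt (Real.sqrt_pos.1 hτ0).le
  have hk' : (0:ℝ) < k := by exact_mod_cast k5
  have hl : Real.sqrt (1 + 2 * M) ≤ lam w (k + 1) * 2 ^ k * Real.exp (δ * k) := by
    refine k2.trans (le_trans (le_of_eq ?_) (mul_le_mul_of_nonneg_right
      (mul_le_mul_of_nonneg_right k3 (by positivity)) (by positivity)))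
    have e1 : Real.exp (δ * k) = Real.exp (δ / 2) ^ k * Real.exp (δ / 2) ^ k := by
      rw [← mul_pow, ← Real.exp_add, ← Real.exp_nat_mul]; congr 1; ring
    rw [e1, Real.exp_neg, pow_succ, div_pow, inv_pow]
    field_simp
  have hsup : ∀ x ∈ Set.Icc (-1:ℝ) 1, |p.eval x| ≤ Real.sqrt (τ * b ^ k) ^ 2 := by
    intro x hx
    have := bm1 hm h0 hM k p hpd.le τ (δ * k) ρ hτ0 hτ2 (by positivity) hl r0 r1 x hx
    rw [Real.sq_sqrt (by positivity), hbd, div_pow, ← Real.exp_nat_mul, ← pow_mul, ← mul_div_assoc,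
      le_div_iff₀ (by positivity), mul_comm]
    refine this.trans (le_of_eq ?_)
    congr 2
    ring
  have h5 := hpe _ (Real.sqrt_nonneg _) hsup
  rw [← hτ2] at h5
  set σ := Real.sqrt (τ * b ^ k) with hσ
  have hσ2 : σ ^ 2 = τ * b ^ k := Real.sq_sqrt (by positivity)
  have hσ0 : 0 ≤ σ := Real.sqrt_nonneg _
  have h6 : M * σ ^ 4 * (1 / (2 * (M + 1) * (b ^ k) ^ 2)) ≤ τ ^ 2 / 2 := by
    rw [show σ ^ 4 = (σ ^ 2) ^ 2 by ring, hσ2, mul_one_div, div_le_div_iff₀ (by positivity) (by positivity)]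
    nlinarith [sq_nonneg (τ * b ^ k)]
  have hK := KK_nonneg
  have h7 : (τ ^ 2 / 2) ^ 2 ≤ (M * σ ^ 3 * Real.sqrt c ^ (k + 1) * (k + 1) * KK) ^ 2 :=
    pow_le_pow_left₀ (by positivity) (by linarith) 2
  have e2 : (M * σ ^ 3 * Real.sqrt c ^ (k + 1) * (k + 1) * KK) ^ 2 =
      M ^ 2 * (τ * b ^ k) ^ 3 * c ^ (k + 1) * (k + 1) ^ 2 * KK ^ 2 := by
    rw [← hσ2]
    nth_rewrite 2 [← Real.sq_sqrt hc0.le]
    ring
  rw [e2] at h7
  have h8 : τ ≤ 4 * M ^ 2 * (b ^ k) ^ 3 * c ^ (k + 1) * (k + 1) ^ 2 * KK ^ 2 := by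
    have : τ ^ 3 * τ ≤ τ ^ 3 * (4 * M ^ 2 * (b ^ k) ^ 3 * c ^ (k + 1) * (k + 1) ^ 2 * KK ^ 2) := by
      nlinarith
    exact le_of_mul_le_mul_left this (by positivity)
  have h9 := mul_le_mul_of_nonneg_right (hτ1.trans h8) (by positivity : 0 ≤ (2 * Real.exp δ) ^ k)
  rw [← mul_pow, show Real.exp (-δ) / 2 * (2 * Real.exp δ) = 1 by rw [Real.exp_neg]; field_simp, one_pow] at h9
  refine absurd k1 (not_lt.2 (h9.trans (le_of_eq ?_)))
  rw [hr]; simp only [mul_pow]; ring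

end Pool.Agent.H.MP_410a69_an
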